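import Mathlib
import Pool.Agent.Helper54.RadoCert

set_option autoImplicit false

namespace Pool.Agent.Results.MP_9bc523_co.SymmetricThreeVar

/-- A system of `l` linear equations `mat x = rhs` in `k` unknowns, over the integers. -/
structure LinSys where
  /-- number of unknowns -/
  k : ℕ
  /-- number of equations -/
  l : ℕ
  /-- the underlying integer matrix -/
  mat : Matrix (Fin l) (Fin k) ℤ
  /-- the right-hand side -/
  rhs : Fin l → ℤ

/-- The associated homogeneous system `mat x = 0`. -/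
def LinSys.hom (A : LinSys) : LinSys :=
  { k := A.k, l := A.l, mat := A.mat, rhs := 0 }

/-- The underlying matrix has full rank `l` (over the rationals). -/
def LinSys.FullRank (A : LinSys) : Prop :=
  (A.mat.map (fun a : ℤ => (a : ℚ))).rank = A.l

/-- `x` is a `k`-distinct solution of `A`: the entries are pairwise distinct and `mat x = rhs`. -/
def LinSys.IsSol (A : LinSys) (x : Fin A.k → ℕ) : Prop :=
  Function.Injective x ∧ A.mat.mulVec (fun j => (x j : ℤ)) = A.rhs

/-- `A` has a `k`-distinct solution in the positive integers. -/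
def LinSys.Irredundant (A : LinSys) : Prop :=
  ∃ x : Fin A.k → ℕ, (∀ j, 1 ≤ x j) ∧ A.IsSol x

/-- `S` is `(A_1, ..., A_r)`-Rado: every `r`-colouring of `S` has, for some `i`, a `k_i`-distinct
solution of `A_i` in `S` all of whose entries have colour `i`. -/
def IsRado {r : ℕ} (A : Fin r → LinSys) (S : Set ℕ) : Prop :=
  ∀ χ : S → Fin r, ∃ i : Fin r, ∃ x : Fin (A i).k → S,
    (A i).IsSol (fun j => (x j : ℕ)) ∧ ∀ j, χ (x j) = i

/-- The set of `k`-distinct solutions of `A` in `[n] = {1, ..., n}` all of whose entries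
satisfy `P`. -/
def LinSys.solSet (A : LinSys) (n : ℕ) (P : ℕ → Prop) : Set (Fin A.k → ℕ) :=
  {x | (∀ j, 1 ≤ x j ∧ x j ≤ n) ∧ A.IsSol x ∧ ∀ j, P (x j)}

/-- The number of `k`-distinct solutions of `A` in `[n]` all of whose entries satisfy `P`
(`solSet` is always a finite set, see `solSet_finite`). -/
noncomputable def LinSys.count (A : LinSys) (n : ℕ) (P : ℕ → Prop) : ℕ :=
  (A.solSet n P).ncard

lemma solSet_finite (A : LinSys) (n : ℕ) (P : ℕ → Prop) : (A.solSet n P).Finite := by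
  apply Set.Finite.subset (Set.Finite.pi (fun _ : Fin A.k => Set.finite_Icc 1 n))
  intro x hx j _
  exact Set.mem_Icc.2 (hx.1 j)

/-- The conclusion asked for in Q1: there are `c > 0` and `n₀` such that for all `n > n₀` every
`r`-colouring of `[n]` has, for some `i`, at least `c n ^ (k_i - l_i)` solutions of `A_i` in
colour `i`. -/
def Supersaturated {r : ℕ} (A : Fin r → LinSys) : Prop :=
  ∃ c : ℝ, 0 < c ∧ ∃ n₀ : ℕ, ∀ n : ℕ, n₀ < n → ∀ χ : ℕ → Fin r, ∃ i : Fin r,
    c * (n : ℝ) ^ ((A i).k - (A i).l) ≤ ((A i).count n (fun m => χ m = i) : ℝ)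

/-- The single equation `2 x + 2 y - z = d`, as a system with `k = 3`, `l = 1`. -/
abbrev eqn (d : ℤ) : LinSys := { k := 3, l := 1, mat := !![2, 2, -1], rhs := ![d] }

/-- The equation `2 x + 2 y - z = 81` for each of three colours. -/
def triple : Fin 3 → LinSys := fun _ => eqn 81

lemma eqn_isSol (d : ℕ) (x : Fin 3 → ℕ) :
    (eqn d).IsSol x ↔ (x 0 ≠ x 1 ∧ x 1 ≠ x 2 ∧ x 0 ≠ x 2) ∧ 2 * x 0 + 2 * x 1 = x 2 + d := by
  unfold LinSys.IsSol eqn
  constructor
  · rintro ⟨hinj, h⟩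
    refine ⟨⟨fun h01 => ?_, fun h12 => ?_, fun h02 => ?_⟩, ?_⟩
    · have := hinj h01
      simp at this
    · have := hinj h12
      simp at this
    · have := hinj h02
      simp at this
    · have := congrFun h 0
      simp [Matrix.mulVec, dotProduct, Fin.sum_univ_three] at this
      omega
  · rintro ⟨⟨h01, h12, h02⟩, h⟩
    refine ⟨?_, ?_⟩
    · intro a b hab
      fin_cases a <;> fin_cases b <;> simp_all
    · ext i
      fin_cases i
      simp [Matrix.mulVec, dotProduct, Fin.sum_univ_three]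
      omega

lemma eqn_fullRank (d : ℤ) : (eqn d).FullRank := by
  unfold LinSys.FullRank eqn
  show ((!![2, 2, -1] : Matrix (Fin 1) (Fin 3) ℤ).map (fun a : ℤ => (a : ℚ))).rank = 1
  have hli : LinearIndependent ℚ
      ((!![2, 2, -1] : Matrix (Fin 1) (Fin 3) ℤ).map (fun a : ℤ => (a : ℚ))).row := by
    rw [linearIndependent_unique_iff]
    intro h0
    have := congrFun h0 0
    simp [Matrix.row] at this
  rw [hli.rank_matrix]
  simp

lemma eqn_irredundant : (eqn 81).Irredundant := by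
  refine ⟨(![40, 2, 3] : Fin 3 → ℕ), ?_, ?_⟩
  · intro j
    change Fin 3 at j
    fin_cases j <;> simp
  · rw [show (81 : ℤ) = ((81 : ℕ) : ℤ) by norm_num, eqn_isSol]
    refine ⟨⟨?_, ?_, ?_⟩, ?_⟩ <;> simp

lemma eqn_hom (d : ℤ) : (eqn d).hom = eqn 0 := by
  unfold LinSys.hom eqn
  simp only [LinSys.mk.injEq, heq_eq_eq, true_and]
  ext i
  fin_cases i
  simp

lemma eqn_hom_irredundant : (eqn 81).hom.Irredundant := by
  rw [eqn_hom]
  refine ⟨(![1, 2, 6] : Fin 3 → ℕ), ?_, ?_⟩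
  · intro j
    change Fin 3 at j
    fin_cases j <;> simp
  · rw [show (0 : ℤ) = ((0 : ℕ) : ℤ) by norm_num, eqn_isSol]
    refine ⟨⟨?_, ?_, ?_⟩, ?_⟩ <;> simp

/-- The colouring by the binary length modulo 3. -/
def col (m : ℕ) : Fin 3 := ⟨Nat.log 2 m % 3, Nat.mod_lt _ (by norm_num)⟩

lemma log_double (y : ℕ) (hy : 1 ≤ y) : Nat.log 2 (2 * y) = Nat.log 2 y + 1 := by
  rw [mul_comm]
  exact Nat.log_mul_base (by norm_num) (by omega)

lemma col_ne {x z : ℕ} (hx : 1 ≤ x) (h1 : 2 * x ≤ z) (h2 : z < 4 * x) : col x ≠ col z := by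
  intro h
  have e1 := Nat.log_mono_right (b := 2) h1
  rw [log_double x hx] at e1
  have e2 : Nat.log 2 z < Nat.log 2 x + 3 := by
    have : Nat.log 2 z ≤ Nat.log 2 (2 * (2 * x)) := Nat.log_mono_right (by omega)
    rw [log_double _ (by omega), log_double _ hx] at this
    omega
  have e3 : Nat.log 2 x % 3 = Nat.log 2 z % 3 := by
    have := congrArg Fin.val h
    exact this
  omega

lemma count_le (n : ℕ) (i : Fin 3) : (eqn 81).count n (fun m => col m = i) ≤ 80 * n := by
  unfold LinSys.count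
  have key : ∀ x ∈ (eqn 81).solSet n (fun m => col m = i), (x 0 ≤ 40 ∨ x 1 ≤ 40) ∧
      2 * x 0 + 2 * x 1 = x 2 + 81 ∧ (1 ≤ x 0 ∧ x 0 ≤ n) ∧ (1 ≤ x 1 ∧ x 1 ≤ n) := by
    rintro x ⟨hx, hsol, hc⟩
    rw [show (81 : ℤ) = ((81 : ℕ) : ℤ) by norm_num, eqn_isSol] at hsol
    obtain ⟨⟨h01, h12, h02⟩, he⟩ := hsol
    have b0 : 1 ≤ x 0 ∧ x 0 ≤ n := hx 0
    have b1 : 1 ≤ x 1 ∧ x 1 ≤ n := hx 1
    have c0 : col (x 0) = i := hc 0
    have c1 : col (x 1) = i := hc 1
    have c2 : col (x 2) = i := hc 2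
    refine ⟨?_, he, b0, b1⟩
    by_contra hno
    push Not at hno
    rcases lt_or_gt_of_ne h01 with hlt | hlt
    · exact col_ne (x := x 1) (z := x 2) b1.1 (by omega) (by omega) (c1.trans c2.symm)
    · exact col_ne (x := x 0) (z := x 2) b0.1 (by omega) (by omega) (c0.trans c2.symm)
  let T : Finset (ℕ × ℕ) := (Finset.Icc 1 40 ×ˢ Finset.Icc 1 n) ∪ (Finset.Icc 1 n ×ˢ Finset.Icc 1 40)
  have hle := Set.ncard_le_ncard_of_injOn (s := (eqn 81).solSet n (fun m => col m = i))
    (t := (T : Set (ℕ × ℕ))) (fun x => (x 0, x 1))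
    (by
      intro x hx
      obtain ⟨h, _, h0, h1⟩ := key x hx
      simp only [T, Finset.coe_union, Finset.coe_product, Set.mem_union, Set.mem_prod,
        Finset.coe_Icc, Set.mem_Icc]
      omega)
    (by
      intro x hx y hy hxy
      obtain ⟨_, ex, _, _⟩ := key x hx
      obtain ⟨_, ey, _, _⟩ := key y hy
      simp only [Prod.mk.injEq] at hxy
      funext j
      change Fin 3 at j
      fin_cases j
      · exact hxy.1
      · exact hxy.2
      · show x 2 = y 2
        omega) T.finite_toSet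
  rw [Set.ncard_coe_finset] at hle
  refine hle.trans ?_
  calc T.card ≤ (Finset.Icc 1 40 ×ˢ Finset.Icc 1 n).card + (Finset.Icc 1 n ×ˢ Finset.Icc 1 40).card :=
        Finset.card_union_le _ _
    _ = 80 * n := by simp [Finset.card_product]; ring

lemma triple_sol {S : Set ℕ} (a b c : S) (hab : (a : ℕ) ≠ b) (hbc : (b : ℕ) ≠ c)
    (hac : (a : ℕ) ≠ c) (h : 2 * (a : ℕ) + 2 * (b : ℕ) = (c : ℕ) + 81) :
    (eqn 81).IsSol (fun j => ((![a, b, c] : Fin 3 → S) j : ℕ)) := by
  rw [show (81 : ℤ) = ((81 : ℕ) : ℤ) by norm_num, eqn_isSol]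
  exact ⟨⟨hab, hbc, hac⟩, h⟩

lemma rado : IsRado triple {n : ℕ | 1 ≤ n} := by
  intro χ
  obtain ⟨x, y, z, h1, h2, h3, _, _, _, hxy, hyz, hxz, he, c1, c2⟩ :=
    Pool.Agent.Helper54.RadoCert.exists_mono
      (fun m => if h : 1 ≤ m then χ ⟨m, h⟩ else 0)
  simp only [h1, h2, h3, dif_pos] at c1 c2
  refine ⟨χ ⟨x, h1⟩, (![⟨x, h1⟩, ⟨y, h2⟩, ⟨z, h3⟩] : Fin 3 → {n : ℕ | 1 ≤ n}),
    triple_sol _ _ _ hxy hyz hxz he, ?_⟩
  · intro j
    change Fin 3 at j
    fin_cases j
    · rfl
    · exact c1.symm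
    · exact (c1.trans c2).symm

/-- The single equation `2x + 2y - z = 81`, taken for each of three colours, satisfies every
hypothesis of Q1, yet supersaturation fails for it: for the colouring `col` each `[n]` has at most
`80 n` monochromatic solutions, while `n ^ (k - l) = n ^ 2`. -/
theorem result :
    (∀ i, (triple i).FullRank) ∧ (∀ i, (triple i).Irredundant) ∧
      (∀ i, (triple i).hom.Irredundant) ∧
      IsRado triple {n : ℕ | 1 ≤ n} ∧
      (∃ χ : ℕ → Fin 3, ∀ n : ℕ, ∀ i, (triple i).count n (fun m => χ m = i) ≤ 80 * n) ∧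
      ¬ Supersaturated triple := by
  refine ⟨fun _ => eqn_fullRank 81, fun _ => eqn_irredundant, fun _ => eqn_hom_irredundant, rado,
    ⟨col, fun n i => count_le n i⟩, ?_⟩
  rintro ⟨c, hc, n₀, h⟩
  obtain ⟨N, hN⟩ := exists_nat_gt (80 / c)
  have hn : n₀ < max (n₀ + 1) N := lt_of_lt_of_le (Nat.lt_succ_self _) (le_max_left _ _)
  obtain ⟨i, hi⟩ := h (max (n₀ + 1) N) hn col
  set n := max (n₀ + 1) N with hndef
  have hnpos : (0 : ℝ) < n := by
    have : 0 < n := by omega
    exact_mod_cast this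
  have h2 : c * (n : ℝ) ^ (3 - 1) ≤ ((eqn 81).count n (fun m => col m = i) : ℝ) := hi
  have h3 : ((eqn 81).count n (fun m => col m = i) : ℝ) ≤ 80 * n := by
    exact_mod_cast count_le n i
  have h4 : (80 : ℝ) < c * n := by
    have : (N : ℝ) ≤ n := by exact_mod_cast le_max_right _ _
    have h5 : 80 / c < n := lt_of_lt_of_le hN this
    rw [div_lt_iff₀ hc] at h5
    linarith
  norm_num at h2
  nlinarith

end Pool.Agent.Results.MP_9bc523_co.SymmetricThreeVar
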