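import Mathlib

set_option autoImplicit false

namespace Pool.Agent.Results.MP_9bc523_co.TwoColour

/-- A system of `l` linear equations `mat x = rhs` in `k` unknowns, over the integers. -/
structure LinSys where
  /-- number of unknowns -/
  k : ℕ
  /-- number of equations -/
  l : ℕ
  /-- the underlying integer matrix -/
  mat : Matrix (Fin l) (Fin k) ℤ
  /-- the right-hand side -/
  rhs : Fin l → ℤ

/-- The associated homogeneous system `mat x = 0`. -/
def LinSys.hom (A : LinSys) : LinSys :=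
  { k := A.k, l := A.l, mat := A.mat, rhs := 0 }

/-- The underlying matrix has full rank `l` (over the rationals). -/
def LinSys.FullRank (A : LinSys) : Prop :=
  (A.mat.map (fun a : ℤ => (a : ℚ))).rank = A.l

/-- `x` is a `k`-distinct solution of `A`: the entries are pairwise distinct and `mat x = rhs`. -/
def LinSys.IsSol (A : LinSys) (x : Fin A.k → ℕ) : Prop :=
  Function.Injective x ∧ A.mat.mulVec (fun j => (x j : ℤ)) = A.rhs

/-- `A` has a `k`-distinct solution in the positive integers. -/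
def LinSys.Irredundant (A : LinSys) : Prop :=
  ∃ x : Fin A.k → ℕ, (∀ j, 1 ≤ x j) ∧ A.IsSol x

/-- `S` is `(A_1, ..., A_r)`-Rado: every `r`-colouring of `S` has, for some `i`, a `k_i`-distinct
solution of `A_i` in `S` all of whose entries have colour `i`. -/
def IsRado {r : ℕ} (A : Fin r → LinSys) (S : Set ℕ) : Prop :=
  ∀ χ : S → Fin r, ∃ i : Fin r, ∃ x : Fin (A i).k → S,
    (A i).IsSol (fun j => (x j : ℕ)) ∧ ∀ j, χ (x j) = i

/-- The set of `k`-distinct solutions of `A` in `[n] = {1, ..., n}` all of whose entries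
satisfy `P`. -/
def LinSys.solSet (A : LinSys) (n : ℕ) (P : ℕ → Prop) : Set (Fin A.k → ℕ) :=
  {x | (∀ j, 1 ≤ x j ∧ x j ≤ n) ∧ A.IsSol x ∧ ∀ j, P (x j)}

/-- The number of `k`-distinct solutions of `A` in `[n]` all of whose entries satisfy `P`
(`solSet` is always a finite set, see `solSet_finite`). -/
noncomputable def LinSys.count (A : LinSys) (n : ℕ) (P : ℕ → Prop) : ℕ :=
  (A.solSet n P).ncard

lemma solSet_finite (A : LinSys) (n : ℕ) (P : ℕ → Prop) : (A.solSet n P).Finite := by
  apply Set.Finite.subset (Set.Finite.pi (fun _ : Fin A.k => Set.finite_Icc 1 n))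
  intro x hx j _
  exact Set.mem_Icc.2 (hx.1 j)

/-- The conclusion asked for in Q1: there are `c > 0` and `n₀` such that for all `n > n₀` every
`r`-colouring of `[n]` has, for some `i`, at least `c n ^ (k_i - l_i)` solutions of `A_i` in
colour `i`. -/
def Supersaturated {r : ℕ} (A : Fin r → LinSys) : Prop :=
  ∃ c : ℝ, 0 < c ∧ ∃ n₀ : ℕ, ∀ n : ℕ, n₀ < n → ∀ χ : ℕ → Fin r, ∃ i : Fin r,
    c * (n : ℝ) ^ ((A i).k - (A i).l) ≤ ((A i).count n (fun m => χ m = i) : ℝ)

/-- The equation `x - 2 y = d`, as a system with `k = 2`, `l = 1`. -/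
abbrev dbl (d : ℤ) : LinSys := { k := 2, l := 1, mat := !![1, -2], rhs := ![d] }

lemma dbl_isSol (d : ℤ) (x : Fin 2 → ℕ) :
    (dbl d).IsSol x ↔ x 0 ≠ x 1 ∧ (x 0 : ℤ) = 2 * x 1 + d := by
  unfold LinSys.IsSol dbl
  constructor
  · rintro ⟨hinj, h⟩
    refine ⟨fun h01 => ?_, ?_⟩
    · have := hinj h01
      simp at this
    · have := congrFun h 0
      simp [Matrix.mulVec, dotProduct, Fin.sum_univ_two] at this
      linarith
  · rintro ⟨hne, h⟩
    refine ⟨?_, ?_⟩
    · intro a b hab
      fin_cases a <;> fin_cases b <;> simp_all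
    · ext i
      fin_cases i
      simp [Matrix.mulVec, dotProduct, Fin.sum_univ_two]
      linarith

lemma dbl_fullRank (d : ℤ) : (dbl d).FullRank := by
  unfold LinSys.FullRank dbl
  show ((!![1, -2] : Matrix (Fin 1) (Fin 2) ℤ).map (fun a : ℤ => (a : ℚ))).rank = 1
  have hli : LinearIndependent ℚ
      ((!![1, -2] : Matrix (Fin 1) (Fin 2) ℤ).map (fun a : ℤ => (a : ℚ))).row := by
    rw [linearIndependent_unique_iff]
    intro h0
    have := congrFun h0 0
    simp [Matrix.row] at this
  rw [hli.rank_matrix]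
  simp

/-- The pair of equations of the counterexample: `x = 2y` for colour 0 and `x = 2y + 2` for
colour 1. -/
def pair : Fin 2 → LinSys := ![dbl 0, dbl 2]

lemma dbl_irredundant (d : ℕ) : (dbl d).Irredundant := by
  refine ⟨![2 + d, 1], ?_, ?_⟩
  · intro j
    change Fin 2 at j
    fin_cases j <;> simp
    omega
  · rw [dbl_isSol]
    simp
    omega

lemma dbl_hom (d : ℤ) : (dbl d).hom = dbl 0 := by
  unfold LinSys.hom dbl
  simp only [LinSys.mk.injEq, heq_eq_eq, true_and]
  ext i
  fin_cases i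
  simp

/-- The colouring of the positive integers by the parity of the binary length. -/
def col (m : ℕ) : Fin 2 := if Nat.log 2 m % 2 = 0 then 0 else 1

lemma log_double (y : ℕ) (hy : 1 ≤ y) : Nat.log 2 (2 * y) = Nat.log 2 y + 1 := by
  rw [mul_comm]
  exact Nat.log_mul_base (by norm_num) (by omega)

/-- No solution of `x = 2 y` is monochromatic in colour 0 for `col`. -/
lemma count_zero (n : ℕ) : (dbl 0).count n (fun m => col m = 0) = 0 := by
  unfold LinSys.count
  rw [Set.ncard_eq_zero (solSet_finite _ _ _), Set.eq_empty_iff_forall_notMem]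
  rintro x ⟨hx, hsol, hc⟩
  rw [dbl_isSol] at hsol
  have h1 := hx 1
  have h0 : x 0 = 2 * x 1 := by
    have := hsol.2
    omega
  have c0 : col (x 0) = 0 := hc 0
  have c1 : col (x 1) = 0 := hc 1
  unfold col at c0 c1
  rw [h0, log_double _ h1.1] at c0
  have d0 : (Nat.log 2 (x 1) + 1) % 2 = 0 := by
    by_contra h
    rw [if_neg h] at c0
    exact absurd c0 (by decide)
  have d1 : Nat.log 2 (x 1) % 2 = 0 := by
    by_contra h
    rw [if_neg h] at c1
    exact absurd c1 (by decide)
  omega

/-- At most `log n` solutions of `x = 2 y + 2` in `[n]` are monochromatic in colour 1 for `col`. -/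
lemma count_one (n : ℕ) : (dbl 2).count n (fun m => col m = 1) ≤ Nat.log 2 n := by
  unfold LinSys.count
  have key : ∀ x ∈ (dbl 2).solSet n (fun m => col m = 1),
      x 0 = 2 * x 1 + 2 ∧ x 1 + 1 = 2 ^ (Nat.log 2 (x 1 + 1)) ∧
        Nat.log 2 (x 1 + 1) < Nat.log 2 n := by
    rintro x ⟨hx, hsol, hc⟩
    rw [dbl_isSol] at hsol
    have h1 := hx 1
    have h2 := hx 0
    have h0 : x 0 = 2 * x 1 + 2 := by
      have := hsol.2
      omega
    have e : x 0 = 2 * (x 1 + 1) := by omega
    refine ⟨h0, ?_, ?_⟩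
    · have c0 : col (x 0) = 1 := hc 0
      have c1 : col (x 1) = 1 := hc 1
      unfold col at c0 c1
      rw [e, log_double _ (by omega)] at c0
      by_contra hne
      have hlog : Nat.log 2 (x 1 + 1) = Nat.log 2 (x 1) := by
        set t := Nat.log 2 (x 1 + 1) with ht
        have hle : 2 ^ t ≤ x 1 + 1 := Nat.pow_log_le_self 2 (by omega)
        have hlt : x 1 + 1 < 2 ^ (t + 1) := Nat.lt_pow_succ_log_self (by norm_num) _
        symm
        apply Nat.log_eq_of_pow_le_of_lt_pow
        · omega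
        · omega
      rw [hlog] at c0
      have d0 : ¬ (Nat.log 2 (x 1) + 1) % 2 = 0 := by
        intro h
        rw [if_pos h] at c0
        exact absurd c0 (by decide)
      have d1 : ¬ Nat.log 2 (x 1) % 2 = 0 := by
        intro h
        rw [if_pos h] at c1
        exact absurd c1 (by decide)
      omega
    · have := Nat.log_mono_right (b := 2) h2.2
      rw [e, log_double _ (by omega)] at this
      omega
  have hle := Set.ncard_le_ncard_of_injOn (s := (dbl 2).solSet n (fun m => col m = 1))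
    (t := Set.Iio (Nat.log 2 n)) (fun x => Nat.log 2 (x 1 + 1)) (fun x hx => (key x hx).2.2)
    (by
      intro x hx y hy hxy
      obtain ⟨a1, a2, _⟩ := key x hx
      obtain ⟨b1, b2, _⟩ := key y hy
      simp only at hxy
      have h1 : x 1 = y 1 := by
        rw [hxy] at a2
        omega
      funext j
      change Fin 2 at j
      fin_cases j
      · show x 0 = y 0
        rw [a1, b1, h1]
      · exact h1) (Set.finite_Iio _)
  refine hle.trans (le_of_eq ?_)
  rw [← Nat.card_coe_set_eq]
  simp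

lemma pair_sol {S : Set ℕ} (d : ℤ) (a b : S) (hne : (a : ℕ) ≠ b) (h : ((a : ℕ) : ℤ) = 2 * ((b : ℕ) : ℤ) + d) :
    (dbl d).IsSol (fun j => ((![a, b] : Fin 2 → S) j : ℕ)) := by
  rw [dbl_isSol]
  exact ⟨hne, h⟩

lemma rado : IsRado pair {n : ℕ | 1 ≤ n} := by
  intro χ
  by_contra hno
  push Not at hno
  have h0 : ∀ y : ℕ, ∀ hy : 1 ≤ y, χ ⟨y, hy⟩ = 0 → χ ⟨2 * y, by simp; omega⟩ = 1 := by
    intro y hy hc
    by_contra hne
    have hne' : χ ⟨2 * y, by simp; omega⟩ = 0 := by
      generalize χ ⟨2 * y, by simp; omega⟩ = t at hne ⊢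
      fin_cases t
      · rfl
      · exact absurd rfl hne
    obtain ⟨j, hj⟩ := hno 0 ![⟨2 * y, by simp; omega⟩, ⟨y, hy⟩] (pair_sol 0 _ _ (by simp; omega) (by simp))
    change Fin 2 at j
    fin_cases j
    · exact hj hne'
    · exact hj hc
  have h1 : ∀ y : ℕ, ∀ hy : 1 ≤ y, χ ⟨y, hy⟩ = 1 → χ ⟨2 * y + 2, by simp⟩ = 0 := by
    intro y hy hc
    by_contra hne
    have hne' : χ ⟨2 * y + 2, by simp⟩ = 1 := by
      generalize χ ⟨2 * y + 2, by simp⟩ = t at hne ⊢
      fin_cases t
      · exact absurd rfl hne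
      · rfl
    obtain ⟨j, hj⟩ := hno 1 ![⟨2 * y + 2, by simp⟩, ⟨y, hy⟩] (pair_sol 2 _ _ (by simp; omega) (by simp))
    change Fin 2 at j
    fin_cases j
    · exact hj hne'
    · exact hj hc
  -- once colour 1 occurs it stays
  have step : ∀ m : ℕ, ∀ hm : 1 ≤ m, χ ⟨m, hm⟩ = 1 → χ ⟨m + 1, by simp⟩ = 1 := by
    intro m hm hc
    by_contra hne
    have hne' : χ ⟨m + 1, by simp⟩ = 0 := by
      generalize χ ⟨m + 1, by simp⟩ = t at hne ⊢
      fin_cases t
      · rfl
      · exact absurd rfl hne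
    have a := h0 (m + 1) (by omega) hne'
    have b := h1 m hm hc
    have e : (⟨2 * (m + 1), by simp; omega⟩ : {n : ℕ | 1 ≤ n}) = ⟨2 * m + 2, by simp⟩ := by
      apply Subtype.ext
      show 2 * (m + 1) = 2 * m + 2
      ring
    rw [e, b] at a
    exact absurd a (by decide)
  have two : χ ⟨2, by simp⟩ = 1 := by
    by_cases h : χ ⟨1, by simp⟩ = 0
    · exact h0 1 le_rfl h
    · refine step 1 le_rfl ?_
      generalize χ ⟨1, by simp⟩ = t at h ⊢
      fin_cases t
      · exact absurd rfl h
      · rfl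
  have all : ∀ m : ℕ, χ ⟨m + 2, by simp⟩ = 1 := by
    intro m
    induction m with
    | zero => exact two
    | succ m ih => exact step (m + 2) (by omega) ih
  have := h1 2 (by norm_num) two
  have h6 := all 4
  have e : (⟨2 * 2 + 2, by simp⟩ : {n : ℕ | 1 ≤ n}) = ⟨4 + 2, by simp⟩ := by
    apply Subtype.ext
    rfl
  rw [e, h6] at this
  exact absurd this (by decide)

lemma exists_large (c : ℝ) (hc : 0 < c) (n₀ : ℕ) :
    ∃ n : ℕ, n₀ < n ∧ ((Nat.log 2 n : ℕ) : ℝ) < c * n := by
  have ht := tendsto_pow_const_div_const_pow_of_one_lt 1 (r := (2 : ℝ)) (by norm_num)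
  have he := (ht.eventually (gt_mem_nhds hc)).and (Filter.eventually_gt_atTop n₀)
  obtain ⟨t, ht1, ht2⟩ := he.exists
  refine ⟨2 ^ t, lt_trans ht2 Nat.lt_two_pow_self, ?_⟩
  rw [Nat.log_pow (by norm_num)]
  rw [div_lt_iff₀ (by positivity)] at ht1
  push_cast
  simpa using ht1

/-- The pair `x = 2y` (colour 0), `x = 2y + 2` (colour 1) satisfies every hypothesis of Q1, yet
supersaturation fails for it: the colouring `col` has no colour-0 solution of `x = 2y` and at most
`log₂ n` colour-1 solutions of `x = 2y + 2` in `[n]`. -/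
theorem result :
    (∀ i, (pair i).FullRank) ∧ (∀ i, (pair i).Irredundant) ∧ (∀ i, (pair i).hom.Irredundant) ∧
      IsRado pair {n : ℕ | 1 ≤ n} ∧
      (∃ χ : ℕ → Fin 2, ∀ n : ℕ, (pair 0).count n (fun m => χ m = 0) = 0 ∧
        (pair 1).count n (fun m => χ m = 1) ≤ Nat.log 2 n) ∧
      ¬ Supersaturated pair := by
  refine ⟨?_, ?_, ?_, rado, ⟨col, fun n => ⟨count_zero n, count_one n⟩⟩, ?_⟩
  · intro i
    fin_cases i
    · exact dbl_fullRank 0
    · exact dbl_fullRank 2
  · intro i
    fin_cases i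
    · exact dbl_irredundant 0
    · exact dbl_irredundant 2
  · intro i
    fin_cases i
    · show ((dbl 0).hom).Irredundant
      rw [dbl_hom]
      exact dbl_irredundant 0
    · show ((dbl 2).hom).Irredundant
      rw [dbl_hom]
      exact dbl_irredundant 0
  · rintro ⟨c, hc, n₀, h⟩
    obtain ⟨n, hn, hlt⟩ := exists_large c hc n₀
    have hpos : (0 : ℝ) < n := by
      have : 0 < n := by omega
      exact_mod_cast this
    obtain ⟨i, hi⟩ := h n hn col
    fin_cases i
    · have h2 : c * (n : ℝ) ^ (2 - 1) ≤ ((dbl 0).count n (fun m => col m = 0) : ℝ) := hi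
      rw [count_zero] at h2
      norm_num at h2
      have := mul_pos hc hpos
      linarith
    · have h2 : c * (n : ℝ) ^ (2 - 1) ≤ ((dbl 2).count n (fun m => col m = 1) : ℝ) := hi
      have h3 : ((dbl 2).count n (fun m => col m = 1) : ℝ) ≤ (Nat.log 2 n : ℝ) := by
        exact_mod_cast count_one n
      norm_num at h2
      linarith

end Pool.Agent.Results.MP_9bc523_co.TwoColour
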